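import Pool.Agent.V11276.HypG

/-!
MP_284f77_nt (2-adic integrality of a sequence defined by a hypergeometric quotient), Q1: PROVED.

`P1 N = ∏_{j=1}^N (4j-1)^2`, `P3 N = ∏_{j=1}^N (4j-3)^2`, and `u` is the integer sequence with
`u n = P1 n - ∑_{m<n} C(2n+1, 2m+1) P3 (n-m) u m` (so `u 0 = 1`).  The theorem says that
`u n / (2n+1)!` has odd denominator for all `n`.
-/

namespace Pool.Agent.Results.MP_284f77_nt.Integrality

/-- `∏_{j=1}^N (4j-1)^2` -/
def P1 (N : ℕ) : ℤ := ∏ j ∈ Finset.Icc 1 N, (4 * (j : ℤ) - 1) ^ 2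

/-- `∏_{j=1}^N (4j-3)^2` -/
def P3 (N : ℕ) : ℤ := ∏ j ∈ Finset.Icc 1 N, (4 * (j : ℤ) - 3) ^ 2

/-- The sequence `1, 6, 256, 28560, ...`. -/
def u (n : ℕ) : ℤ :=
  P1 n - ∑ m : Fin n, (Nat.choose (2 * n + 1) (2 * (m : ℕ) + 1) : ℤ) * P3 (n - (m : ℕ)) * u m
termination_by n
decreasing_by exact m.2

open PowerSeries Pool.Agent.V11276.HypQuot

theorem coeff_D (k : ℕ) : coeff k D = (P3 k : ℚ) / (2 * k).factorial := by
  induction k with
  | zero =>
    rw [coeff_zero_eq_constantCoeff_apply, D_const]; simp [P3]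
  | succ k ih =>
    have h := F_rec (al := 1 / 4) (be := 1 / 4) (ga := 1 / 2) (fun n => by positivity) k
    change ((k : ℚ) + 1) * (1 / 2 + k) * coeff (k + 1) D =
      4 * (1 / 4 + k) * (1 / 4 + k) * coeff k D at h
    rw [ih] at h
    have e1 : P3 (k + 1) = P3 k * (4 * (k : ℤ) + 1) ^ 2 := by
      unfold P3
      rw [Finset.prod_Icc_succ_top (by omega)]
      push_cast; ring
    have e2 : ((2 * (k + 1)).factorial : ℚ) =
        (2 * k + 2) * ((2 * k + 1) * ((2 * k).factorial : ℚ)) := by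
      have : 2 * (k + 1) = 2 * k + 1 + 1 := by ring
      rw [this, Nat.factorial_succ, Nat.factorial_succ]
      push_cast; ring
    rw [e1, e2]
    have h4 : (((2 * k).factorial : ℕ) : ℚ) ≠ 0 := by exact_mod_cast Nat.factorial_ne_zero _
    have h5 : ((k : ℚ) + 1) * (1 / 2 + k) ≠ 0 := by positivity
    apply mul_left_cancel₀ h5
    rw [h]
    push_cast
    field_simp
    ring

theorem coeff_N (k : ℕ) : coeff k N = (P1 k : ℚ) / (2 * k + 1).factorial := by
  induction k with
  | zero =>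
    rw [coeff_zero_eq_constantCoeff_apply, N_const]; simp [P1]
  | succ k ih =>
    have h := F_rec (al := 3 / 4) (be := 3 / 4) (ga := 3 / 2) (fun n => by positivity) k
    change ((k : ℚ) + 1) * (3 / 2 + k) * coeff (k + 1) N =
      4 * (3 / 4 + k) * (3 / 4 + k) * coeff k N at h
    rw [ih] at h
    have e1 : P1 (k + 1) = P1 k * (4 * (k : ℤ) + 3) ^ 2 := by
      unfold P1
      rw [Finset.prod_Icc_succ_top (by omega)]
      push_cast; ring
    have e2 : ((2 * (k + 1) + 1).factorial : ℚ) =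
        (2 * k + 3) * ((2 * k + 2) * ((2 * k + 1).factorial : ℚ)) := by
      have : 2 * (k + 1) + 1 = 2 * k + 1 + 1 + 1 := by ring
      rw [this, Nat.factorial_succ (2 * k + 1 + 1), Nat.factorial_succ (2 * k + 1)]
      push_cast; ring
    rw [e1, e2]
    have h4 : (((2 * k + 1).factorial : ℕ) : ℚ) ≠ 0 := by exact_mod_cast Nat.factorial_ne_zero _
    have h5 : ((k : ℚ) + 1) * (3 / 2 + k) ≠ 0 := by positivity
    apply mul_left_cancel₀ h5
    rw [h]
    push_cast
    field_simp
    ring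

theorem coeff_Q (n : ℕ) : coeff n Q = (u n : ℚ) / (2 * n + 1).factorial := by
  induction n using Nat.strong_induction_on with
  | _ n ih =>
    have h := congrArg (coeff n) DQ
    rw [coeff_mul, Finset.Nat.sum_antidiagonal_eq_sum_range_succ
      (fun i j => coeff i Q * coeff j D), Finset.sum_range_succ, Nat.sub_self,
      coeff_zero_eq_constantCoeff_apply (φ := D), D_const, mul_one, coeff_N] at h
    have h1 : coeff n Q = (P1 n : ℚ) / (2 * n + 1).factorial -
        ∑ m ∈ Finset.range n, (u m : ℚ) / (2 * m + 1).factorial *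
          ((P3 (n - m) : ℚ) / (2 * (n - m)).factorial) := by
      rw [← h]
      rw [add_sub_assoc, eq_comm, add_sub_left_comm]
      conv_rhs => rw [← add_zero (coeff n Q)]
      congr 1
      rw [sub_eq_zero]
      refine Finset.sum_congr rfl fun m hm => ?_
      rw [ih m (Finset.mem_range.1 hm), coeff_D]
    rw [h1]
    rw [u]
    push_cast
    rw [sub_div]
    congr 1
    rw [Finset.sum_div, Finset.sum_range]
    refine Finset.sum_congr rfl fun m _ => ?_
    have hc : ((Nat.choose (2 * n + 1) (2 * (m : ℕ) + 1) : ℕ) : ℚ) =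
        ((2 * n + 1).factorial : ℚ) / ((2 * (m : ℕ) + 1).factorial *
          (2 * (n - (m : ℕ))).factorial) := by
      have hm := m.2
      rw [Nat.cast_choose ℚ (by omega)]
      congr 4
      omega
    rw [hc]
    have h4 : (((2 * n + 1).factorial : ℕ) : ℚ) ≠ 0 := by exact_mod_cast Nat.factorial_ne_zero _
    have h5 : (((2 * (m : ℕ) + 1).factorial : ℕ) : ℚ) ≠ 0 := by
      exact_mod_cast Nat.factorial_ne_zero _
    have h6 : (((2 * (n - (m : ℕ))).factorial : ℕ) : ℚ) ≠ 0 := by
      exact_mod_cast Nat.factorial_ne_zero _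
    field_simp

theorem result : ∀ n : ℕ, Odd ((u n : ℚ) / ((2 * n + 1).factorial : ℕ)).den := by
  intro n
  have h := Q_mem n
  rw [coeff_Q] at h
  have h2 := mem_Z2.1 h
  rw [← Nat.not_even_iff_odd, even_iff_two_dvd]
  exact h2

end Pool.Agent.Results.MP_284f77_nt.Integrality
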